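import Pool.Agent.Helper94_Rad.Stmt
import Pool.Agent.Helper69_Weyl.Divisor

/-!
Module DOM of the radical lemma.
-/

set_option autoImplicit false

namespace Pool.Agent.RAD.H79

open Filter Topology

lemma two_pow_le (v : ℕ) (hv : v ≠ 0) : 2 ^ v.primeFactors.card ≤ v.divisors.card := by
  rw [Nat.card_divisors hv, ← Finset.prod_const]
  refine Finset.prod_le_prod' fun p hp => ?_
  have := (Nat.prime_of_mem_primeFactors hp).factorization_pos_of_dvd hv
    (Nat.dvd_of_mem_primeFactors hp)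
  omega

theorem dom_real (D : ℕ) (η : ℝ) (hη : 0 < η) :
    ∃ C : ℝ, 1 ≤ C ∧ ∀ v : ℕ, v ≠ 0 → (D : ℝ) ^ v.primeFactors.card ≤ C * (v : ℝ) ^ η := by
  set a : ℕ := D + 1 with ha
  have ha0 : (0 : ℝ) < a := by positivity
  obtain ⟨C, hC1, hC⟩ := Pool.Agent.Helper69_Weyl.exists_card_divisors_le (η / a) (div_pos hη ha0)
  refine ⟨C ^ a, one_le_pow₀ hC1, fun v hv => ?_⟩
  have h1 : (D : ℝ) ≤ 2 ^ a := by
    have : D < 2 ^ a := (Nat.lt_succ_self D).trans (Nat.lt_two_pow_self)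
    exact_mod_cast this.le
  have h2 : ((2 : ℝ)) ^ v.primeFactors.card ≤ v.divisors.card := by
    exact_mod_cast two_pow_le v hv
  have h3 : (D : ℝ) ^ v.primeFactors.card ≤ ((v.divisors.card : ℕ) : ℝ) ^ a := by
    calc (D : ℝ) ^ v.primeFactors.card ≤ (2 ^ a) ^ v.primeFactors.card :=
          pow_le_pow_left₀ (by positivity) h1 _
      _ = (2 ^ v.primeFactors.card) ^ a := by rw [← pow_mul, ← pow_mul, mul_comm]
      _ ≤ _ := pow_le_pow_left₀ (by positivity) h2 _
  refine h3.trans ?_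
  have h4 := pow_le_pow_left₀ (by positivity) (hC v hv) a
  refine h4.trans (le_of_eq ?_)
  rw [mul_pow, ← Real.rpow_natCast (((v : ℝ)) ^ (η / a)) a, ← Real.rpow_mul (by positivity),
    div_mul_cancel₀ _ ha0.ne']

theorem dom : DomStmt := by
  intro D η hη
  obtain ⟨C, hC1, hC⟩ := dom_real D η hη
  exact ⟨C, hC1, fun v hv => hC v (by omega)⟩

end Pool.Agent.RAD.H79
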