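import Pool.Agent.Helper94_Rad.Stmt

/-!
Module PRM of the radical lemma.
-/

set_option autoImplicit false

namespace Pool.Agent.RAD.H79

open Filter Topology

/-- the primes have density zero -/
theorem prm_real (δ : ℝ) (hδ : 0 < δ) :
    ∃ x0 : ℝ, 1 < x0 ∧ ∀ x : ℝ, x0 ≤ x → (Nat.primeCounting ⌊x⌋₊ : ℝ) ≤ δ * x := by
  have h1 : Tendsto (fun x : ℝ => Real.log 4 / Real.log (√x)) atTop (𝓝 0) :=
    (Real.tendsto_log_atTop.comp Real.tendsto_sqrt_atTop).const_div_atTop _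
  have h2 : Tendsto (fun x : ℝ => 1 / √x) atTop (𝓝 0) :=
    Real.tendsto_sqrt_atTop.const_div_atTop _
  have h3 : Tendsto (fun x : ℝ => Real.log 4 / Real.log (√x) + 1 / √x) atTop (𝓝 0) := by
    simpa using h1.add h2
  have h4 : ∀ᶠ x : ℝ in atTop, Real.log 4 / Real.log (√x) + 1 / √x < δ :=
    h3.eventually_lt_const hδ
  obtain ⟨x0, hx0⟩ := eventually_atTop.1 (h4.and (eventually_gt_atTop (1 : ℝ)))
  refine ⟨x0, (hx0 x0 le_rfl).2, fun x hx => ?_⟩
  obtain ⟨h5, h6⟩ := hx0 x hx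
  have h7 := Chebyshev.pi_le_log4_mul_div h6
  have hx1 : 0 < x := by linarith
  have h8 : √x * √x = x := Real.mul_self_sqrt hx1.le
  have h9 : 0 < √x := Real.sqrt_pos.2 hx1
  have h10 : Real.log 4 * x / Real.log (√x) + √x
      = (Real.log 4 / Real.log (√x) + 1 / √x) * x := by
    have : 1 / √x * x = √x := by
      rw [one_div, inv_mul_eq_div, div_eq_iff h9.ne', h8]
    rw [add_mul, this]; ring
  rw [h10] at h7
  exact h7.trans (mul_le_mul_of_nonneg_right h5.le hx1.le)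

theorem prm : PrmStmt := by
  intro δ hδ
  obtain ⟨x0, -, hx⟩ := prm_real δ hδ
  obtain ⟨N, hN⟩ := exists_nat_ge x0
  refine ⟨N, fun H hH => ?_⟩
  have h1 : x0 ≤ (H : ℝ) := hN.trans (by exact_mod_cast hH)
  have h2 := hx H h1
  rw [Nat.floor_natCast] at h2
  have h3 : Nat.primeCounting H = ((Finset.range (H + 1)).filter Nat.Prime).card := by
    unfold Nat.primeCounting Nat.primeCounting'
    rw [Nat.count_eq_card_filter_range]
  rw [h3] at h2
  exact h2

end Pool.Agent.RAD.H79
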